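import Mathlib
import Pool.Agent.T2H78.FlipData

/-!
MP_1d99bd_co, Q1: shortest paths in the flip graph of the arrangements with a given support may
flip common contact points.

The definitions (Moebius strip, pseudolines, crossing and contact points, arrangements, supports,
flips, flip graph) are in `Pool.Agent.T2H78.FlipDefs`. The example was found by computer.
-/

set_option autoImplicit false

open Set

namespace Pool.Agent.Results.MP_1d99bd_co.CommonContactFlipped

open Pool.Agent.T2H78.Flip

/-- There are a support `S`, two pseudoline arrangements `Λ` and `Λ'` supported by `S`, a common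
contact point `v` of `Λ` and `Λ'`, and a shortest path from `Λ` to `Λ'` in the flip graph `G(S)`
one of whose steps is the flip of `v`. The arrangements have four pseudolines, the support has ten
vertices, and the path has length four. -/
theorem result : ∃ (S : Set Moebius × Set Moebius) (Λ Λ' : Set (Set Moebius)) (v : Moebius)
    (m : ℕ) (P : ℕ → Set (Set Moebius)),
    IsVertex S Λ ∧ IsVertex S Λ' ∧ v ∈ contacts Λ ∧ v ∈ contacts Λ' ∧
      IsShortestFlipPath S Λ Λ' m P ∧ (∃ i < m, IsFlip (P i) (P (i + 1)) v) ∧
      Λ.ncard = 4 ∧ S.2.ncard = 10 ∧ m = 4 := by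
  refine ⟨support (fam L0), fam L0, fam L4, pt 5 0, 4, path, path_is.2.2.1 0 (by omega),
    path_is.2.2.1 4 le_rfl, ?_, ?_, ⟨path_is, fun m' P' h => four_le_example h⟩,
    ⟨0, by omega, flip01⟩, ncard_fam good0, ncard_vertices, rfl⟩
  · rw [mem_contacts good0 (by omega)]
    decide +kernel
  · rw [mem_contacts good4 (by omega)]
    decide +kernel

end Pool.Agent.Results.MP_1d99bd_co.CommonContactFlipped
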